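import Mathlib

/-!
# The elliptic curves with an endomorphism of degree two

`Endo2 W`: `W` has an endomorphism of degree `2` over `K`: it is the isogeny whose kernel is generated
by a rational point of order two, followed by an isomorphism.
`endo2_iff`: over a field of characteristic zero these are the curves `y² = x³ + b x` if `K` contains a
square root of `-1`, `y² = x³ + 4 d x² + 2 d² x` if it contains one of `-2`, and
`y² = x (x + d) (x + d (1 - θ)⁴)` if it contains a root of `θ² - θ + 2`.
-/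

set_option autoImplicit false

namespace Pool.Agent.Lib.MP_1a91b9_ntL

open WeierstrassCurve

section

variable {K : Type*} [Field K]

/-- the curve `y² = x³ + a x² + b x` -/
def crv (a b : K) : WeierstrassCurve K := ⟨0, a, 0, b, 0⟩

/-- `W` has an endomorphism of degree `2` over `K`. The isogeny with kernel `{0, (0, 0)}` maps
`y² = x³ + a x² + b x` to `y² = x³ - 2 a x² + (a² - 4 b) x`. -/
def Endo2 (W : WeierstrassCurve K) : Prop :=
  ∃ a b : K, b ≠ 0 ∧ a ^ 2 - 4 * b ≠ 0 ∧ (∃ C : VariableChange K, C • W = crv a b) ∧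
    ∃ C : VariableChange K, C • crv a b = crv (-2 * a) (a ^ 2 - 4 * b)

/-- the isomorphisms between two curves of this form -/
theorem crv_iso (h2 : (2 : K) ≠ 0) {a b a' b' : K} {C : VariableChange K}
    (h : C • crv a b = crv a' b') : ∃ u r : K, u ≠ 0 ∧ a' = u ^ 2 * (a + 3 * r) ∧
      b' = u ^ 4 * (b + 2 * a * r + 3 * r ^ 2) ∧ r * (r ^ 2 + a * r + b) = 0 := by
  have hu : ((C.u⁻¹ : Kˣ) : K) ≠ 0 := Units.ne_zero _
  obtain ⟨u, hu'⟩ : ∃ u : K, u = ((C.u⁻¹ : Kˣ) : K) := ⟨_, rfl⟩
  rw [← hu'] at hu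
  have h1 := congrArg WeierstrassCurve.a₁ h
  have h2' := congrArg WeierstrassCurve.a₂ h
  have h3 := congrArg WeierstrassCurve.a₃ h
  have h4 := congrArg WeierstrassCurve.a₄ h
  have h6 := congrArg WeierstrassCurve.a₆ h
  rw [variableChange_a₁, ← hu'] at h1
  rw [variableChange_a₂, ← hu'] at h2'
  rw [variableChange_a₃, ← hu'] at h3
  rw [variableChange_a₄, ← hu'] at h4
  rw [variableChange_a₆, ← hu'] at h6
  simp only [crv] at h1 h2' h3 h4 h6
  have hs : C.s = 0 := by
    have h5 := (mul_eq_zero.1 h1).resolve_left hu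
    rw [zero_add] at h5
    exact (mul_eq_zero.1 h5).resolve_left h2
  have ht : C.t = 0 := by
    have h5 := (mul_eq_zero.1 h3).resolve_left (pow_ne_zero 3 hu)
    have h7 : 2 * C.t = 0 := by linear_combination h5
    exact (mul_eq_zero.1 h7).resolve_left h2
  rw [hs] at h2' h4
  rw [ht] at h4 h6
  refine ⟨u, C.r, hu, ?_, ?_, ?_⟩
  · linear_combination -h2'
  · linear_combination -h4
  · have h5 := (mul_eq_zero.1 h6).resolve_left (pow_ne_zero 6 hu)
    linear_combination h5

/-- the change of variables `(u, r)` with `u⁻¹` -/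
theorem crv_change {u r a b a' b' : K} (hu : u ≠ 0) (h1 : a' = u ^ 2 * (a + 3 * r))
    (h2 : b' = u ^ 4 * (b + 2 * a * r + 3 * r ^ 2)) (h3 : r * (r ^ 2 + a * r + b) = 0) :
    (⟨(Units.mk0 u hu)⁻¹, r, 0, 0⟩ : VariableChange K) • crv a b = crv a' b' := by
  have hui : (((⟨(Units.mk0 u hu)⁻¹, r, 0, 0⟩ : VariableChange K).u⁻¹ : Kˣ) : K) = u := by
    rw [inv_inv]
    rfl
  ext
  · rw [variableChange_a₁, hui]
    simp only [crv]
    ring
  · rw [variableChange_a₂, hui]
    simp only [crv]
    rw [h1]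
    ring
  · rw [variableChange_a₃, hui]
    simp only [crv]
    ring
  · rw [variableChange_a₄, hui]
    simp only [crv]
    rw [h2]
    ring
  · rw [variableChange_a₆, hui]
    simp only [crv]
    linear_combination u ^ 6 * h3

/-- **The curves with an endomorphism of degree two.** -/
theorem endo2_iff [CharZero K] (W : WeierstrassCurve K) : Endo2 W ↔
    (∃ i b : K, i ^ 2 = -1 ∧ b ≠ 0 ∧ ∃ C : VariableChange K, C • W = crv 0 b) ∨
    (∃ s d : K, s ^ 2 = -2 ∧ d ≠ 0 ∧ ∃ C : VariableChange K, C • W = crv (4 * d) (2 * d ^ 2)) ∨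
    (∃ θ d : K, θ ^ 2 = θ - 2 ∧ d ≠ 0 ∧ ∃ C : VariableChange K,
      C • W = crv (d * (1 + (1 - θ) ^ 4)) (d ^ 2 * (1 - θ) ^ 4)) := by
  have h20 : (2 : K) ≠ 0 := two_ne_zero
  constructor
  · rintro ⟨a, b, hb, hd, ⟨C, hC⟩, C', hC'⟩
    obtain ⟨u, r, hu, h1, h2, h3⟩ := crv_iso h20 hC'
    obtain ⟨m, hm⟩ : ∃ m, m = u ^ 2 := ⟨_, rfl⟩
    have hm4 : u ^ 4 = m ^ 2 := by rw [hm]; ring
    rw [← hm] at h1
    rw [hm4] at h2
    by_cases hr : r = 0
    · rw [hr] at h1 h2
      by_cases ha : a = 0
      · left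
        rw [ha] at h2 hC
        have hm2 : m ^ 2 = -4 := by
          refine mul_right_cancel₀ hb ?_
          linear_combination -h2
        exact ⟨m / 2, b, by linear_combination hm2 / 4, hb, C, hC⟩
      · right; left
        have hm2 : m = -2 := by
          refine mul_right_cancel₀ ha ?_
          linear_combination -h1
        rw [hm2] at h2
        refine ⟨u, a / 4, by rw [← hm, hm2], div_ne_zero ha (by norm_num), C, ?_⟩
        rw [hC]
        have e1 : 4 * (a / 4) = a := by ring
        have e2 : 2 * (a / 4) ^ 2 = b := by linear_combination h2 / 8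
        rw [e1, e2]
    · right; right
      have h4 := (mul_eq_zero.1 h3).resolve_left hr
      have hb' : b = -r ^ 2 - a * r := by linear_combination h4
      have h5 : (a + 2 * r) * (a + 2 * r) = (a + 2 * r) * (m ^ 2 * r) := by
        rw [hb'] at h2
        linear_combination h2
      have h6 : a + 2 * r ≠ 0 := by
        intro h0
        apply hd
        rw [hb']
        linear_combination (a + 2 * r) * h0
      have h7 := mul_left_cancel₀ h6 h5
      have ha : a = (m ^ 2 - 2) * r := by linear_combination h7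
      have h8 : (m - 1) * (m ^ 2 + 3 * m + 4) = 0 := by
        refine mul_right_cancel₀ hr ?_
        rw [ha] at h1
        linear_combination -h1
      have hm1 : m - 1 ≠ 0 := by
        intro h0
        apply hb
        have h9 : m = 1 := by linear_combination h0
        rw [hb', ha, h9]
        ring
      have h9 := (mul_eq_zero.1 h8).resolve_left hm1
      -- the square root of `m`
      have h10 : (u ^ 2 - u + 2) * (u ^ 2 + u + 2) = 0 := by
        rw [hm] at h9
        linear_combination h9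
      obtain ⟨θ, hθ, hθm⟩ : ∃ θ : K, θ ^ 2 = θ - 2 ∧ m = θ - 2 := by
        rcases mul_eq_zero.1 h10 with h11 | h11
        · exact ⟨u, by linear_combination h11, by rw [hm]; linear_combination h11⟩
        · exact ⟨-u, by linear_combination h11, by rw [hm]; linear_combination h11⟩
      refine ⟨θ, -r, hθ, neg_ne_zero.2 hr, C, ?_⟩
      rw [hC, hb', ha, hθm]
      have e1 : -r * (1 + (1 - θ) ^ 4) = ((θ - 2) ^ 2 - 2) * r := by
        linear_combination (-r * (θ ^ 2 - 3 * θ + 2)) * hθ
      have e2 : (-r) ^ 2 * (1 - θ) ^ 4 = -r ^ 2 - ((θ - 2) ^ 2 - 2) * r * r := by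
        linear_combination (r ^ 2 * (θ ^ 2 - 3 * θ + 2)) * hθ
      rw [e1, e2]
  · rintro (⟨i, b, hi, hb, C, hC⟩ | ⟨s, d, hs, hd, C, hC⟩ | ⟨θ, d, hθ, hd, C, hC⟩)
    · refine ⟨0, b, hb, ?_, ⟨C, hC⟩, _, crv_change (u := 1 + i) (r := 0) ?_ ?_ ?_ ?_⟩
      · have e : (0 : K) ^ 2 - 4 * b = -4 * b := by ring
        rw [e]
        exact mul_ne_zero (by norm_num) hb
      · intro h0
        have h1 : i = -1 := by linear_combination h0
        rw [h1] at hi
        have h3 : (2 : K) = 0 := by linear_combination hi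
        exact h20 h3
      · ring
      · linear_combination (-b * (i ^ 2 + 4 * i + 5)) * hi
      · ring
    · refine ⟨4 * d, 2 * d ^ 2, mul_ne_zero h20 (pow_ne_zero 2 hd), ?_, ⟨C, hC⟩, _,
        crv_change (u := s) (r := 0) ?_ ?_ ?_ ?_⟩
      · have e : (4 * d) ^ 2 - 4 * (2 * d ^ 2) = 8 * d ^ 2 := by ring
        rw [e]
        exact mul_ne_zero (by norm_num) (pow_ne_zero 2 hd)
      · rintro rfl
        have h3 : (2 : K) = 0 := by linear_combination hs
        exact h20 h3
      · linear_combination (-4 * d) * hs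
      · linear_combination (-2 * d ^ 2 * (s ^ 2 - 2)) * hs
      · ring
    · have hθ1 : (1 - θ) ^ 4 = 3 * θ - 1 := by
        linear_combination (θ ^ 2 - 3 * θ + 1) * hθ
      rw [hθ1] at hC
      have hθ0 : θ ≠ 0 := by
        rintro rfl
        have h3 : (2 : K) = 0 := by linear_combination hθ
        exact h20 h3
      refine ⟨d * (1 + (3 * θ - 1)), d ^ 2 * (3 * θ - 1), mul_ne_zero (pow_ne_zero 2 hd) ?_, ?_,
        ⟨C, hC⟩, _, crv_change (u := θ) (r := -d) hθ0 ?_ ?_ ?_⟩
      · intro h0
        have h3 : (16 : K) = 0 := by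
          linear_combination (-3 * θ + 2) * h0 + 9 * hθ
        exact absurd h3 (by norm_num)
      · intro h0
        have h1 : d ^ 2 * (9 * θ ^ 2 - 12 * θ + 4) = 0 := by linear_combination h0
        have h3 := (mul_eq_zero.1 h1).resolve_left (pow_ne_zero 2 hd)
        have h4 : (3 * θ - 2) ^ 2 = 0 := by linear_combination h3
        have h5 := (pow_eq_zero_iff two_ne_zero).1 h4
        have h6 : (16 : K) = 0 := by
          linear_combination (-3 * θ + 1) * h5 + 9 * hθ
        exact absurd h6 (by norm_num)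
      · linear_combination (-3 * d * θ) * hθ
      · linear_combination (d ^ 2 * (3 * θ - 2) * (θ ^ 2 + θ - 1)) * hθ
      · ring

end

end Pool.Agent.Lib.MP_1a91b9_ntL
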