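import Pool.Agent.Lib.MP_1a91b9_ntL.Tw
import Pool.Agent.Lib.MP_1a91b9_nuX.AN.ESum

/-!
# The local factors of the quadratic twists of the curve of `CD`: the form over `ℂ` and over `K`
-/

set_option autoImplicit false
set_option linter.unusedSectionVars false

namespace Pool.Agent.Lib.MP_1a91b9_ntL

open NumberField IsDedekindDomain WeierstrassCurve WithZero Pool.Agent.Lib.MP_1a91b9_nuT
  Pool.Agent.Lib.MP_1a91b9_nuX Pool.Agent.Lib.MP_1a91b9_nuX.GL Pool.Agent.Lib.MP_1a91b9_nuX.DB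
  Pool.Agent.Lib.MP_1a91b9_nt Pool.Agent.Lib.MP_1a91b9_nuT.S4 Pool.Agent.Lib.MP_1a91b9_nuG

universe u

variable [CD] [HC]

/-- from the identity over `𝓞 K` to the values at the complex numbers -/
theorem aeval_of_map {p : Polynomial ℤ} {a : 𝓞 K} {e : ℤ}
    (h : p.map (Int.castRingHom (𝓞 K)) =
      (1 - Polynomial.C ((e : 𝓞 K) * a) * Polynomial.X) *
        (1 - Polynomial.C ((e : 𝓞 K) * cj a) * Polynomial.X)) (x : ℂ) :
    Polynomial.aeval x p = (1 - (e : ℂ) * embK (a : K) * x) *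
      (1 - (e : ℂ) * (starRingEnd ℂ) (embK (a : K)) * x) := by
  obtain ⟨φ, hφ⟩ : ∃ φ : 𝓞 K →+* ℂ, φ = embK.toRingHom.comp (algebraMap (𝓞 K) K) := ⟨_, rfl⟩
  have h1 : Polynomial.aeval x p = Polynomial.eval₂ φ x (p.map (Int.castRingHom (𝓞 K))) := by
    rw [Polynomial.eval₂_map, Polynomial.aeval_def]
    congr 1
    exact Subsingleton.elim _ _
  have h2 : φ a = embK (a : K) := by rw [hφ]; rfl
  have h3 : φ (cj a) = (starRingEnd ℂ) (embK (a : K)) := by rw [hφ, ← emb_cj]; rfl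
  rw [h1, h, Polynomial.eval₂_mul, Polynomial.eval₂_sub, Polynomial.eval₂_sub, Polynomial.eval₂_mul,
    Polynomial.eval₂_mul, Polynomial.eval₂_C, Polynomial.eval₂_C, Polynomial.eval₂_X,
    Polynomial.eval₂_one, map_mul, map_mul, h2, h3, map_intCast]

section
variable {F : Type u} [Field F] [NumberField F] [Algebra K F] {w : HeightOneSpectrum (𝓞 F)}

/-- `loc_tw` over `ℂ` -/
theorem loc_tw_eval (hf : HC.f ∉ (w.under (𝓞 K)).asIdeal) (h2 : (2 : 𝓞 F) ∉ w.asIdeal) {d : 𝓞 F}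
    (hd : d ∉ w.asIdeal) (W : WeierstrassCurve F) (C : VariableChange F)
    (hC : C • W = ⟨0, 0, 0, (CD.A : F) * (d : F) ^ 2, (CD.B : F) * (d : F) ^ 3⟩) {e : ℤ}
    (he : (e = 1 ∧ ∃ t : 𝓞 F, t ^ 2 - d ∈ w.asIdeal) ∨
      (e = -1 ∧ ¬ ∃ t : 𝓞 F, t ^ 2 - d ∈ w.asIdeal)) (x : ℂ) :
    Polynomial.aeval x (locPoly W w) =
      (1 - (e : ℂ) * embK (psi F w.asIdeal : K) * x) *
        (1 - (e : ℂ) * (starRingEnd ℂ) (embK (psi F w.asIdeal : K)) * x) :=
  aeval_of_map (loc_tw hf h2 hd W C hC he) x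

end

section
variable {v : HeightOneSpectrum (𝓞 K)}

omit [HC] in
theorem under_K (v : HeightOneSpectrum (𝓞 K)) :
    letI := NumberField.inst_ringOfIntegersAlgebra K K
    (v.under (𝓞 K)).asIdeal = v.asIdeal := by
  ext x
  have e : @algebraMap (𝓞 K) (𝓞 K) _ _ (NumberField.inst_ringOfIntegersAlgebra K K) x = x := by
    apply RingOfIntegers.ext
    rfl
  constructor
  · intro h
    have h' : @algebraMap (𝓞 K) (𝓞 K) _ _ (NumberField.inst_ringOfIntegersAlgebra K K) x ∈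
        v.asIdeal := h
    rwa [e] at h'
  · intro h
    change @algebraMap (𝓞 K) (𝓞 K) _ _ (NumberField.inst_ringOfIntegersAlgebra K K) x ∈
        v.asIdeal
    rwa [e]

/-- **The local factor of a quadratic twist over `K`**, at an odd place prime to the conductor and
to `d` -/
theorem locK_tw (hf : HC.f ∉ v.asIdeal) (h2 : (2 : 𝓞 K) ∉ v.asIdeal) {d : 𝓞 K}
    (hd : d ∉ v.asIdeal) (W : WeierstrassCurve K) (C : VariableChange K)
    (hC : C • W = ⟨0, 0, 0, (CD.A : K) * (d : K) ^ 2, (CD.B : K) * (d : K) ^ 3⟩) {e : ℤ}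
    (he : (e = 1 ∧ ∃ t : 𝓞 K, t ^ 2 - d ∈ v.asIdeal) ∨
      (e = -1 ∧ ¬ ∃ t : 𝓞 K, t ^ 2 - d ∈ v.asIdeal)) :
    (locPoly W v).map (Int.castRingHom (𝓞 K)) =
      (1 - Polynomial.C ((e : 𝓞 K) * ps v.asIdeal) * Polynomial.X) *
        (1 - Polynomial.C ((e : 𝓞 K) * cj (ps v.asIdeal)) * Polynomial.X) := by
  have h := loc_tw (F := K) (w := v) (fun h => hf (by rw [← under_K v]; exact h)) h2 hd W C hC he
  rwa [AN.psi_self] at h

/-- `locK_tw` over `ℂ` -/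
theorem locK_tw_eval (hf : HC.f ∉ v.asIdeal) (h2 : (2 : 𝓞 K) ∉ v.asIdeal) {d : 𝓞 K}
    (hd : d ∉ v.asIdeal) (W : WeierstrassCurve K) (C : VariableChange K)
    (hC : C • W = ⟨0, 0, 0, (CD.A : K) * (d : K) ^ 2, (CD.B : K) * (d : K) ^ 3⟩) {e : ℤ}
    (he : (e = 1 ∧ ∃ t : 𝓞 K, t ^ 2 - d ∈ v.asIdeal) ∨
      (e = -1 ∧ ¬ ∃ t : 𝓞 K, t ^ 2 - d ∈ v.asIdeal)) (x : ℂ) :
    Polynomial.aeval x (locPoly W v) =
      (1 - (e : ℂ) * embK (ps v.asIdeal : K) * x) *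
        (1 - (e : ℂ) * (starRingEnd ℂ) (embK (ps v.asIdeal : K)) * x) :=
  aeval_of_map (locK_tw hf h2 hd W C hC he) x

/-- **The local factor of a quadratic twist over `K`**, at an odd place prime to the conductor at
which the value of `d` is odd -/
theorem locK_tw_bad (hf : HC.f ∉ v.asIdeal) {d : K} (hd0 : d ≠ 0)
    (hd : ¬ IsSquare (v.valuation K d)) (W : WeierstrassCurve K) (C : VariableChange K)
    (hC : C • W = ⟨0, 0, 0, (CD.A : K) * d ^ 2, (CD.B : K) * d ^ 3⟩) : locPoly W v = 1 :=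
  loc_tw_bad (fun h => hf (by rw [← under_K v]; exact h)) hd0 hd W C hC

/-- the valuation `1` is not a square value -/
theorem not_sq_exp {k : ℤ} (hk : k % 2 = 1) : ¬ IsSquare (exp k : ℤᵐ⁰) := by
  rintro ⟨x, hx⟩
  have hx0 : x ≠ 0 := by
    rintro rfl
    rw [mul_zero] at hx
    exact exp_ne_zero hx
  rw [← exp_log hx0, ← exp_add, exp_inj] at hx
  omega

end

end Pool.Agent.Lib.MP_1a91b9_ntL
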