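import Pool.Agent.Lib.MP_1a91b9_nuX.GL.CntD
import Pool.Agent.Lib.MP_1a91b9_nuX.GL.CntC

/-!
# The local factors of the quadratic twists of the curve of `CD`

`E : y² = x³ + A x + B` the curve of `CD` with its Hecke character `psi`, `W` isomorphic to the
quadratic twist `y² = x³ + A d² x + B d³` over a field `F` which contains `K`, `w` a place of `F`
above an odd prime number and prime to the conductor of `psi`.

`loc_tw`: if `d` is prime to `w`, the local polynomial of `W` is the one of `E` with `psi` replaced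
by `e psi`, `e = 1` if `d` is a square modulo `w` and `-1` otherwise.
`loc_tw_bad`: if the value of `d` at `w` is odd, the local polynomial of `W` is `1`.
-/

set_option autoImplicit false
set_option linter.unusedSectionVars false

namespace Pool.Agent.Lib.MP_1a91b9_ntL

open NumberField IsDedekindDomain WeierstrassCurve WithZero Pool.Agent.Lib.MP_1a91b9_nuT
  Pool.Agent.Lib.MP_1a91b9_nuX Pool.Agent.Lib.MP_1a91b9_nuX.GL Pool.Agent.Lib.MP_1a91b9_nuX.DB
  Pool.Agent.Lib.MP_1a91b9_nt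

universe u

/-! ### The points over the algebraic closure of a finite field -/

section
variable {κ : Type*} [Field κ] {q : ℕ} {α β γ δ s : κ}

private theorem tw_inj (hs : s ^ 2 = δ) (h0 : δ ≠ 0) :
    Function.Injective (fun P : κ × κ => (δ * P.1, δ * s * P.2)) := by
  have hs0 : s ≠ 0 := by
    rintro rfl
    exact h0 (by rw [← hs, zero_pow two_ne_zero])
  rintro ⟨a, b⟩ ⟨c, d⟩ h
  rw [Prod.mk.injEq] at h ⊢
  exact ⟨mul_left_cancel₀ h0 h.1, mul_left_cancel₀ (mul_ne_zero h0 hs0) h.2⟩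

private theorem tw_pow (hs : s ^ 2 = δ) {ε : κ} (hε : ε ^ 2 = 1) (hq : s ^ q = ε * s) :
    δ ^ q = δ := by
  rw [← hs, ← pow_mul, mul_comm 2 q, pow_mul, hq, mul_pow, hε, one_mul]

theorem sp_twist (hs : s ^ 2 = δ) (h0 : δ ≠ 0) (hq : s ^ q = s) :
    (Sp q (⟨0, δ * α, 0, δ ^ 2 * β, δ ^ 3 * γ⟩ : WeierstrassCurve κ)).ncard =
      (Sp q (⟨0, α, 0, β, γ⟩ : WeierstrassCurve κ)).ncard := by
  have hs0 : s ≠ 0 := by
    rintro rfl
    exact h0 (by rw [← hs, zero_pow two_ne_zero])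
  have hδ : δ ^ q = δ := tw_pow hs (one_pow 2) (by rw [one_mul]; exact hq)
  have himg : Sp q (⟨0, δ * α, 0, δ ^ 2 * β, δ ^ 3 * γ⟩ : WeierstrassCurve κ) =
      (fun P : κ × κ => (δ * P.1, δ * s * P.2)) ''
        Sp q (⟨0, α, 0, β, γ⟩ : WeierstrassCurve κ) := by
    ext ⟨X, Y⟩
    constructor
    · rintro ⟨h1, h2, h3⟩
      simp only at h1 h2 h3
      refine ⟨(X / δ, Y / (δ * s)), ⟨?_, ?_, ?_⟩, ?_⟩
      · simp only
        rw [div_pow, h1, hδ]
      · simp only
        rw [div_pow, mul_pow, h2, hδ, hq]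
      · simp only
        have e : δ * s * (Y / (δ * s)) = Y := by field_simp
        have e2 : δ * (X / δ) = X := by field_simp
        obtain ⟨x, hx⟩ : ∃ x, x = X / δ := ⟨_, rfl⟩
        obtain ⟨y, hy⟩ : ∃ y, y = Y / (δ * s) := ⟨_, rfl⟩
        rw [← hy] at e ⊢
        rw [← hx] at e2 ⊢
        rw [← e, ← e2] at h3
        have h4 : δ ^ 3 * (y ^ 2 + 0 * x * y + 0 * y - (x ^ 3 + α * x ^ 2 + β * x + γ)) = 0 := by
          linear_combination h3 - δ ^ 2 * y ^ 2 * hs
        have h5 := (mul_eq_zero.1 h4).resolve_left (pow_ne_zero 3 h0)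
        exact sub_eq_zero.1 h5
      · simp only [Prod.mk.injEq]
        constructor <;> field_simp
    · rintro ⟨⟨x, y⟩, ⟨h1, h2, h3⟩, h⟩
      simp only [Prod.mk.injEq] at h h1 h2 h3
      obtain ⟨rfl, rfl⟩ := h
      refine ⟨?_, ?_, ?_⟩
      · simp only
        rw [mul_pow, h1, hδ]
      · simp only
        rw [mul_pow, mul_pow, h2, hδ, hq]
      · simp only
        linear_combination δ ^ 3 * h3 + δ ^ 2 * y ^ 2 * hs
  rw [himg, Set.ncard_image_of_injective _ (tw_inj hs h0)]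

theorem sp_twist_neg (hs : s ^ 2 = δ) (h0 : δ ≠ 0) (hq : s ^ q = -s) :
    (Sp q (⟨0, δ * α, 0, δ ^ 2 * β, δ ^ 3 * γ⟩ : WeierstrassCurve κ)).ncard =
      (Sm q (⟨0, α, 0, β, γ⟩ : WeierstrassCurve κ)).ncard := by
  have hs0 : s ≠ 0 := by
    rintro rfl
    exact h0 (by rw [← hs, zero_pow two_ne_zero])
  have hδ : δ ^ q = δ := tw_pow hs (ε := -1) (by ring) (by rw [neg_one_mul]; exact hq)
  have himg : Sp q (⟨0, δ * α, 0, δ ^ 2 * β, δ ^ 3 * γ⟩ : WeierstrassCurve κ) =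
      (fun P : κ × κ => (δ * P.1, δ * s * P.2)) ''
        Sm q (⟨0, α, 0, β, γ⟩ : WeierstrassCurve κ) := by
    ext ⟨X, Y⟩
    constructor
    · rintro ⟨h1, h2, h3⟩
      simp only at h1 h2 h3
      refine ⟨(X / δ, Y / (δ * s)), ⟨?_, ?_, ?_⟩, ?_⟩
      · simp only
        rw [div_pow, h1, hδ]
      · simp only
        rw [div_pow, mul_pow, h2, hδ, hq]
        field_simp
        ring
      · simp only
        have e : δ * s * (Y / (δ * s)) = Y := by field_simp
        have e2 : δ * (X / δ) = X := by field_simp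
        obtain ⟨x, hx⟩ : ∃ x, x = X / δ := ⟨_, rfl⟩
        obtain ⟨y, hy⟩ : ∃ y, y = Y / (δ * s) := ⟨_, rfl⟩
        rw [← hy] at e ⊢
        rw [← hx] at e2 ⊢
        rw [← e, ← e2] at h3
        have h4 : δ ^ 3 * (y ^ 2 + 0 * x * y + 0 * y - (x ^ 3 + α * x ^ 2 + β * x + γ)) = 0 := by
          linear_combination h3 - δ ^ 2 * y ^ 2 * hs
        have h5 := (mul_eq_zero.1 h4).resolve_left (pow_ne_zero 3 h0)
        exact sub_eq_zero.1 h5
      · simp only [Prod.mk.injEq]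
        constructor <;> field_simp
    · rintro ⟨⟨x, y⟩, ⟨h1, h2, h3⟩, h⟩
      simp only [Prod.mk.injEq] at h h1 h2 h3
      obtain ⟨rfl, rfl⟩ := h
      refine ⟨?_, ?_, ?_⟩
      · simp only
        rw [mul_pow, h1, hδ]
      · simp only
        rw [mul_pow, mul_pow, h2, hδ, hq]
        ring
      · simp only
        linear_combination δ ^ 3 * h3 + δ ^ 2 * y ^ 2 * hs
  rw [himg, Set.ncard_image_of_injective _ (tw_inj hs h0)]

end

/-! ### Square roots in the residue field -/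

section
variable {N Ω : Type*} [Field N] [NumberField N] [Field Ω] [Algebra N Ω]

/-- the square root of an integer in the residue field of `V` -/
theorem root_frob {v : HeightOneSpectrum (𝓞 N)} {V : ValuationSubring Ω} (hV : Abv v V)
    {d : 𝓞 N} {s : RF V} (hs : s ^ 2 = rd V (algebraMap N Ω (d : N))) :
    ((∃ t : 𝓞 N, t ^ 2 - d ∈ v.asIdeal) → s ^ Ideal.absNorm v.asIdeal = s) ∧
      ((¬ ∃ t : 𝓞 N, t ^ 2 - d ∈ v.asIdeal) → s ^ Ideal.absNorm v.asIdeal = -s) := by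
  obtain ⟨ψ, hψ⟩ := CntB_psi hV
  have hker : ∀ a : 𝓞 N, ψ a = 0 ↔ a ∈ v.asIdeal := fun a => by
    rw [hψ, CntB_rd_zero hV (v.valuation_le_one a)]
    exact v.valuation_lt_one_iff_mem a
  rw [← hψ] at hs
  have hfix : ∀ a : 𝓞 N, ψ a ^ Ideal.absNorm v.asIdeal = ψ a := fun a => by
    rw [hψ]
    exact rd_fix hV (v.valuation_le_one a)
  constructor
  · rintro ⟨t, ht⟩
    have h1 : ψ t ^ 2 = s ^ 2 := by
      rw [hs, ← map_pow]
      rw [← hker, map_sub, sub_eq_zero] at ht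
      exact ht
    rcases sq_eq_sq_iff_eq_or_eq_neg.1 h1 with h2 | h2
    · rw [← h2]
      exact hfix t
    · have h3 : s = ψ (-t) := by rw [map_neg, h2, neg_neg]
      rw [h3]
      exact hfix _
  · intro hn
    have h1 : (s ^ Ideal.absNorm v.asIdeal) ^ 2 = s ^ 2 := by
      rw [← pow_mul, mul_comm, pow_mul, hs, hfix]
    rcases sq_eq_sq_iff_eq_or_eq_neg.1 h1 with h2 | h2
    · exfalso
      apply hn
      obtain ⟨j, hj⟩ := CntB_j hV
      have hfin := finite_residue v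
      have hq : Nat.card (IsLocalRing.ResidueField (v.adicCompletionIntegers N)) =
        Ideal.absNorm v.asIdeal := nrm_eq v
      rw [← hq] at h2
      obtain ⟨y, hy⟩ := (CntB_range j s).1 h2
      obtain ⟨a, ha⟩ := residue_surjective v y
      refine ⟨a, ?_⟩
      have h3 : ψ a = s := by
        rw [← hy, ← ha, hψ]
        exact (hj (a : N) (algebraMap (𝓞 N) (v.adicCompletionIntegers N) a)
          (v.valuation_le_one a) rfl).symm
      rw [← hker, map_sub, map_pow, h3, hs, sub_self]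
    · exact h2

end

variable [CD] [HC]

section
variable {F : Type u} [Field F] [NumberField F] [Algebra K F] {w : HeightOneSpectrum (𝓞 F)}

omit [HC] in
/-- the change of variables of the twist -/
theorem twist_change {C : VariableChange F} {α β γ : F} (h : C • E F = ⟨0, α, 0, β, γ⟩) (d : F) :
    (⟨C.u, d * C.r, 0, 0⟩ : VariableChange F) •
      (⟨0, 0, 0, (CD.A : F) * d ^ 2, (CD.B : F) * d ^ 3⟩ : WeierstrassCurve F) =
      ⟨0, d * α, 0, d ^ 2 * β, d ^ 3 * γ⟩ := by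
  have hA : (E F).a₄ = (CD.A : F) := rfl
  have hB : (E F).a₆ = (CD.B : F) := rfl
  have h1' : (E F).a₁ = 0 := rfl
  have h2' : (E F).a₂ = 0 := rfl
  have h3' : (E F).a₃ = 0 := rfl
  have hu : ((C.u⁻¹ : Fˣ) : F) ≠ 0 := Units.ne_zero _
  have h1 := congrArg WeierstrassCurve.a₁ h
  have h2 := congrArg WeierstrassCurve.a₂ h
  have h3 := congrArg WeierstrassCurve.a₃ h
  have h4 := congrArg WeierstrassCurve.a₄ h
  have h6 := congrArg WeierstrassCurve.a₆ h
  simp only [variableChange_a₁, variableChange_a₂, variableChange_a₃, variableChange_a₄,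
    variableChange_a₆, hA, hB, h1', h2', h3'] at h1 h2 h3 h4 h6
  have hs : C.s = 0 := by
    have h5 := (mul_eq_zero.1 h1).resolve_left hu
    rw [zero_add] at h5
    exact (mul_eq_zero.1 h5).resolve_left two_ne_zero
  have ht : C.t = 0 := by
    have h5 := (mul_eq_zero.1 h3).resolve_left (pow_ne_zero 3 hu)
    have h6 : 2 * C.t = 0 := by linear_combination h5
    exact (mul_eq_zero.1 h6).resolve_left two_ne_zero
  rw [hs] at h2 h4
  rw [ht] at h4 h6
  ext
  · simp [variableChange_a₁]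
  · simp only [variableChange_a₂]
    rw [← h2]
    ring
  · simp [variableChange_a₃]
  · simp only [variableChange_a₄]
    rw [← h4]
    ring
  · simp only [variableChange_a₆]
    rw [← h6]
    ring

omit [HC] in
/-- a good model of the form `y² = x³ + α x² + β x + γ` -/
theorem good_sq (h2 : w.valuation F 2 = 1) {C₁ : VariableChange F}
    (hC₁ : GM.GoodW (w.valuation F) (C₁ • E F)) :
    ∃ (C : VariableChange F) (α β γ : F), C • E F = ⟨0, α, 0, β, γ⟩ ∧
      GM.GoodW (w.valuation F) (C • E F) := by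
  obtain ⟨W, hW⟩ : ∃ W, W = C₁ • E F := ⟨_, rfl⟩
  rw [← hW] at hC₁
  obtain ⟨D, hD⟩ : ∃ D : VariableChange F, D = ⟨1, 0, -(W.a₁ / 2), -(W.a₃ / 2)⟩ := ⟨_, rfl⟩
  have hg : GM.GoodW (w.valuation F) (D • W) := by
    refine GM.good_change hC₁ ?_ ?_ ?_ ?_
    · rw [hD]
      exact map_one _
    · rw [hD]
      change w.valuation F 0 ≤ 1
      rw [map_zero]
      exact zero_le
    · rw [hD]
      change w.valuation F (-(W.a₁ / 2)) ≤ 1
      rw [Valuation.map_neg, map_div₀, h2, div_one]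
      exact hC₁.a1
    · rw [hD]
      change w.valuation F (-(W.a₃ / 2)) ≤ 1
      rw [Valuation.map_neg, map_div₀, h2, div_one]
      exact hC₁.a3
  refine ⟨D * C₁, (D • W).a₂, (D • W).a₄, (D • W).a₆, ?_, ?_⟩
  · rw [mul_smul, ← hW]
    refine WeierstrassCurve.ext ?_ rfl ?_ rfl rfl
    · rw [variableChange_a₁, hD]
      simp
      ring
    · rw [variableChange_a₃, hD]
      simp
      ring
  · rw [mul_smul, ← hW]
    exact hg

/-- **The local factor of a quadratic twist** at an odd place prime to the conductor and to `d`. -/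
theorem loc_tw (hf : HC.f ∉ (w.under (𝓞 K)).asIdeal) (h2 : (2 : 𝓞 F) ∉ w.asIdeal) {d : 𝓞 F}
    (hd : d ∉ w.asIdeal) (W : WeierstrassCurve F) (C : VariableChange F)
    (hC : C • W = ⟨0, 0, 0, (CD.A : F) * (d : F) ^ 2, (CD.B : F) * (d : F) ^ 3⟩) {e : ℤ}
    (he : (e = 1 ∧ ∃ t : 𝓞 F, t ^ 2 - d ∈ w.asIdeal) ∨
      (e = -1 ∧ ¬ ∃ t : 𝓞 F, t ^ 2 - d ∈ w.asIdeal)) :
    (locPoly W w).map (Int.castRingHom (𝓞 K)) =
      (1 - Polynomial.C ((e : 𝓞 K) * psi F w.asIdeal) * Polynomial.X) *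
        (1 - Polynomial.C ((e : 𝓞 K) * cj (psi F w.asIdeal)) * Polynomial.X) := by
  classical
  have hfin : FiniteDimensional K F := Module.Finite.of_restrictScalars_finite ℚ K F
  have halg : Algebra.IsAlgebraic K F := Algebra.IsAlgebraic.of_finite K F
  let g : F →ₐ[K] Kb := IsAlgClosed.lift
  let iA : Algebra F Kb := g.toRingHom.toAlgebra
  have iT : IsScalarTower K F Kb := IsScalarTower.of_algebraMap_eq fun x => (g.commutes x).symm
  obtain ⟨V, hV⟩ := exists_abv (Ω := Kb) w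
  obtain ⟨C₁, hC₁⟩ := good_of_f' hf
  have hv2 : w.valuation F 2 = 1 := by
    have h3 : w.valuation F ((2 : 𝓞 F) : F) = 1 := by
      refine le_antisymm (w.valuation_le_one _) (not_lt.1 fun h => h2 ?_)
      exact (GM.val_lt_mem _).1 h
    have e2 : ((2 : 𝓞 F) : F) = 2 := map_ofNat (algebraMap (𝓞 F) F) 2
    rwa [e2] at h3
  have hvd : w.valuation F (d : F) = 1 := by
    refine le_antisymm (w.valuation_le_one _) (not_lt.1 fun h => hd ?_)
    exact (GM.val_lt_mem _).1 h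
  have hg1 : GM.GoodW (w.valuation F) (C₁.map (algebraMap K F) • E F) := by
    have h1 := GM.good_map (F' := F) (v' := w.valuation F) (GM.val_under w) hC₁
    have h3 : (E K).map (algebraMap K F) = E F := by
      refine WeierstrassCurve.ext ?_ ?_ ?_ ?_ ?_
      · exact map_zero _
      · exact map_zero _
      · exact map_zero _
      · exact map_intCast _ _
      · exact map_intCast _ _
    have h4 : (C₁ • E K).map (algebraMap K F) = C₁.map (algebraMap K F) • E F := by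
      rw [← h3]
      exact (WeierstrassCurve.map_variableChange _ _ _).symm
    rw [← h4]
    exact h1
  obtain ⟨C₂, α, β, γ, hC₂, hg⟩ := good_sq hv2 hg1
  -- the twisted model
  obtain ⟨C₃, hC₃⟩ : ∃ C₃ : VariableChange F, C₃ = ⟨C₂.u, (d : F) * C₂.r, 0, 0⟩ := ⟨_, rfl⟩
  have hW : (C₃ * C) • W = ⟨0, (d : F) * α, 0, (d : F) ^ 2 * β, (d : F) ^ 3 * γ⟩ := by
    rw [mul_smul, hC, hC₃, twist_change hC₂]
  have hg' := hg
  rw [hC₂] at hg'
  have hα : w.valuation F α ≤ 1 := hg'.a2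
  have hβ : w.valuation F β ≤ 1 := hg'.a4
  have hγ : w.valuation F γ ≤ 1 := hg'.a6
  have hgW : GM.GoodW (w.valuation F)
      (⟨0, (d : F) * α, 0, (d : F) ^ 2 * β, (d : F) ^ 3 * γ⟩ : WeierstrassCurve F) := by
    refine ⟨⟨?_, ?_, ?_, ?_, ?_⟩, ?_⟩
    · exact hg'.a1
    · change w.valuation F ((d : F) * α) ≤ 1
      rw [map_mul, hvd, one_mul]
      exact hα
    · exact hg'.a3
    · change w.valuation F ((d : F) ^ 2 * β) ≤ 1
      rw [map_mul, map_pow, hvd, one_pow, one_mul]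
      exact hβ
    · change w.valuation F ((d : F) ^ 3 * γ) ≤ 1
      rw [map_mul, map_pow, hvd, one_pow, one_mul]
      exact hγ
    · have e1 : (⟨0, (d : F) * α, 0, (d : F) ^ 2 * β, (d : F) ^ 3 * γ⟩ : WeierstrassCurve F).Δ =
          (d : F) ^ 6 * (⟨0, α, 0, β, γ⟩ : WeierstrassCurve F).Δ := by
        simp only [WeierstrassCurve.Δ, WeierstrassCurve.b₂, WeierstrassCurve.b₄,
          WeierstrassCurve.b₆, WeierstrassCurve.b₈]
        ring
      rw [e1, map_mul, map_pow, hvd, one_pow, one_mul]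
      exact hg'.disc
  obtain ⟨-, hl⟩ := locPoly_good hV W (C := C₃ * C) (by rw [hW]; exact hgW)
  rw [hW] at hl
  -- the reductions
  obtain ⟨δ, hδ⟩ : ∃ δ, δ = rd V (algebraMap F Kb (d : F)) := ⟨_, rfl⟩
  have hint : ∀ x : F, w.valuation F x ≤ 1 → V.valuation (algebraMap F Kb x) ≤ 1 := fun x hx =>
    (hV x).2 hx
  have hred : rdW V ((⟨0, (d : F) * α, 0, (d : F) ^ 2 * β, (d : F) ^ 3 * γ⟩ :
      WeierstrassCurve F).map (algebraMap F Kb)) =
      ⟨0, δ * rd V (algebraMap F Kb α), 0, δ ^ 2 * rd V (algebraMap F Kb β),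
        δ ^ 3 * rd V (algebraMap F Kb γ)⟩ := by
    have hdV := hint _ hvd.le
    have hpV : ∀ n : ℕ, V.valuation (algebraMap F Kb (d : F) ^ n) ≤ 1 := fun n => by
      rw [map_pow]
      exact pow_le_one₀ zero_le hdV
    refine WeierstrassCurve.ext ?_ ?_ ?_ ?_ ?_
    · change rd V (algebraMap F Kb 0) = 0
      rw [map_zero, rd_zero]
    · change rd V (algebraMap F Kb ((d : F) * α)) = _
      rw [map_mul, rd_mul hdV (hint _ hα), hδ]
    · change rd V (algebraMap F Kb 0) = 0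
      rw [map_zero, rd_zero]
    · change rd V (algebraMap F Kb ((d : F) ^ 2 * β)) = _
      rw [map_mul, map_pow, rd_mul (hpV 2) (hint _ hβ), rd_pow hdV, hδ]
    · change rd V (algebraMap F Kb ((d : F) ^ 3 * γ)) = _
      rw [map_mul, map_pow, rd_mul (hpV 3) (hint _ hγ), rd_pow hdV, hδ]
  have hred0 : rdW V ((⟨0, α, 0, β, γ⟩ : WeierstrassCurve F).map (algebraMap F Kb)) =
      ⟨0, rd V (algebraMap F Kb α), 0, rd V (algebraMap F Kb β), rd V (algebraMap F Kb γ)⟩ := by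
    refine WeierstrassCurve.ext ?_ rfl ?_ rfl rfl
    · change rd V (algebraMap F Kb 0) = 0
      rw [map_zero, rd_zero]
    · change rd V (algebraMap F Kb 0) = 0
      rw [map_zero, rd_zero]
  have hcl : IsAlgClosed (RF V) := rd_closed
  obtain ⟨s, hs⟩ := IsAlgClosed.exists_pow_nat_eq δ (n := 2) (by norm_num)
  have hδ0 : δ ≠ 0 := by
    rw [hδ, Ne, CntB_rd_zero hV hvd.le, hvd]
    exact lt_irrefl _
  have hrf := root_frob hV (d := d) (s := s) (by rw [hs, hδ])
  -- the two numbers of points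
  obtain ⟨-, -, htwo⟩ := card_two hV (C₂ • E F) hg.toIntW
  rw [hC₂, hred0] at htwo
  have hup : (C₂ • E F).map (algebraMap F Kb) = C₂.map (algebraMap F Kb) • EF Kb := by
    have h3 : (E F).map (algebraMap F Kb) = E Kb := by
      refine WeierstrassCurve.ext ?_ ?_ ?_ ?_ ?_
      · exact map_zero _
      · exact map_zero _
      · exact map_zero _
      · exact map_intCast _ _
      · exact map_intCast _ _
    rw [EF_eq, ← h3]
    exact (WeierstrassCurve.map_variableChange _ _ _).symm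
  obtain ⟨hc, -⟩ := cnt_w hV hg hf
  rw [← hup, hC₂, hred0] at hc
  obtain ⟨hp1, -, -, -⟩ := psi_facts hf
  rw [hl, hred]
  obtain ⟨n, hn⟩ : ∃ n, n = (Sp (Ideal.absNorm w.asIdeal)
    (⟨0, rd V (algebraMap F Kb α), 0, rd V (algebraMap F Kb β),
      rd V (algebraMap F Kb γ)⟩ : WeierstrassCurve (RF V))).ncard := ⟨_, rfl⟩
  obtain ⟨n', hn'⟩ : ∃ n', n' = (Sp (Ideal.absNorm w.asIdeal)
    (⟨0, δ * rd V (algebraMap F Kb α), 0, δ ^ 2 * rd V (algebraMap F Kb β),
        δ ^ 3 * rd V (algebraMap F Kb γ)⟩ : WeierstrassCurve (RF V))).ncard := ⟨_, rfl⟩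
  obtain ⟨Ψ, hΨ⟩ : ∃ Ψ, Ψ = psi F w.asIdeal := ⟨_, rfl⟩
  rw [← hn] at hc htwo
  rw [← hΨ] at hc hp1 ⊢
  rw [← hn']
  have hnn : (n' : ℤ) = Ideal.absNorm w.asIdeal - e * (Ideal.absNorm w.asIdeal - n) := by
    rcases he with ⟨rfl, ht⟩ | ⟨rfl, ht⟩
    · have h3 := sp_twist (α := rd V (algebraMap F Kb α)) (β := rd V (algebraMap F Kb β))
        (γ := rd V (algebraMap F Kb γ)) hs hδ0 (hrf.1 ht)
      rw [← hn, ← hn'] at h3
      rw [h3]
      ring
    · have h3 := sp_twist_neg (α := rd V (algebraMap F Kb α)) (β := rd V (algebraMap F Kb β))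
        (γ := rd V (algebraMap F Kb γ)) hs hδ0 (hrf.2 ht)
      rw [← hn'] at h3
      rw [← h3] at htwo
      have h4 : (n : ℤ) + n' = 2 * Ideal.absNorm w.asIdeal := by exact_mod_cast htwo
      linear_combination h4
  have he2 : (e : 𝓞 K) ^ 2 = 1 := by
    rcases he with ⟨rfl, -⟩ | ⟨rfl, -⟩
    · push_cast; ring
    · push_cast; ring
  have h1 : ((n : ℕ) : 𝓞 K) + 1 = (1 - Ψ) * (1 - cj Ψ) := by
    have h2 := mul_cj (1 - Ψ)
    rw [← hc, map_sub, map_one] at h2
    rw [h2]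
    push_cast
    ring
  have h2' : ((Ideal.absNorm w.asIdeal : ℕ) : 𝓞 K) = Ψ * cj Ψ := by
    rw [← hp1, mul_cj]
  have h3 : (Int.castRingHom (𝓞 K)) ((Ideal.absNorm w.asIdeal : ℤ) - (n' : ℤ)) =
      (e : 𝓞 K) * Ψ + (e : 𝓞 K) * cj Ψ := by
    rw [hnn, eq_intCast]
    push_cast
    rw [h2']
    linear_combination -(e : 𝓞 K) * h1
  have h4 : (Int.castRingHom (𝓞 K)) (Ideal.absNorm w.asIdeal : ℤ) =
      ((e : 𝓞 K) * Ψ) * ((e : 𝓞 K) * cj Ψ) := by
    rw [eq_intCast]
    push_cast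
    rw [h2']
    linear_combination -(Ψ * cj Ψ) * he2
  obtain ⟨x, hx⟩ : ∃ x : 𝓞 K, x = (e : 𝓞 K) * Ψ := ⟨_, rfl⟩
  obtain ⟨y, hy⟩ : ∃ y : 𝓞 K, y = (e : 𝓞 K) * cj Ψ := ⟨_, rfl⟩
  rw [← hx, ← hy] at h3 h4 ⊢
  rw [Polynomial.map_add, Polynomial.map_sub, Polynomial.map_mul, Polynomial.map_mul,
    Polynomial.map_C, Polynomial.map_C, Polynomial.map_X, Polynomial.map_pow, Polynomial.map_X,
    Polynomial.map_one, h3, h4, Polynomial.C_add, Polynomial.C_mul]
  ring

/-- **The local factor of a quadratic twist** at an odd place prime to the conductor at which the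
value of `d` is odd. -/
theorem loc_tw_bad (hf : HC.f ∉ (w.under (𝓞 K)).asIdeal) {d : F} (hd0 : d ≠ 0)
    (hd : ¬ IsSquare (w.valuation F d)) (W : WeierstrassCurve F) (C : VariableChange F)
    (hC : C • W = ⟨0, 0, 0, (CD.A : F) * d ^ 2, (CD.B : F) * d ^ 3⟩) : locPoly W w = 1 := by
  classical
  obtain ⟨C₁, hC₁⟩ := good_of_f' hf
  have hg : GM.GoodW (w.valuation F) (C₁.map (algebraMap K F) • E F) := by
    have h1 := GM.good_map (F' := F) (v' := w.valuation F) (GM.val_under w) hC₁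
    have h3 : (E K).map (algebraMap K F) = E F := by
      refine WeierstrassCurve.ext ?_ ?_ ?_ ?_ ?_
      · exact map_zero _
      · exact map_zero _
      · exact map_zero _
      · exact map_intCast _ _
      · exact map_intCast _ _
    have h4 : (C₁ • E K).map (algebraMap K F) = C₁.map (algebraMap K F) • E F := by
      rw [← h3]
      exact (WeierstrassCurve.map_variableChange _ _ _).symm
    rw [← h4]
    exact h1
  obtain ⟨C₂, hC₂⟩ : ∃ C₂, C₂ = C₁.map (algebraMap K F) := ⟨_, rfl⟩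
  rw [← hC₂] at hg
  obtain ⟨T, hT⟩ : ∃ T : WeierstrassCurve F,
    T = ⟨0, 0, 0, (CD.A : F) * d ^ 2, (CD.B : F) * d ^ 3⟩ := ⟨_, rfl⟩
  rw [← hT] at hC
  have hTc : T.c₄ = d ^ 2 * (E F).c₄ := by
    rw [hT]
    have hA : (E F).a₄ = (CD.A : F) := rfl
    have h1' : (E F).a₁ = 0 := rfl
    have h2' : (E F).a₂ = 0 := rfl
    have h3' : (E F).a₃ = 0 := rfl
    simp only [WeierstrassCurve.c₄, WeierstrassCurve.b₂, WeierstrassCurve.b₄, hA, h1', h2', h3']
    ring
  have hTd : T.Δ = d ^ 6 * (E F).Δ := by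
    rw [hT]
    have hA : (E F).a₄ = (CD.A : F) := rfl
    have hB : (E F).a₆ = (CD.B : F) := rfl
    have h1' : (E F).a₁ = 0 := rfl
    have h2' : (E F).a₂ = 0 := rfl
    have h3' : (E F).a₃ = 0 := rfl
    simp only [WeierstrassCurve.Δ, WeierstrassCurve.b₂, WeierstrassCurve.b₄, WeierstrassCurve.b₆,
      WeierstrassCurve.b₈, hA, hB, h1', h2', h3']
    ring
  have hWc : W.c₄ = (C.u : F) ^ 4 * T.c₄ := by
    rw [← hC, variableChange_c₄, Units.val_inv_eq_inv_val]
    have hu : (C.u : F) ≠ 0 := C.u.ne_zero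
    field_simp
  have hWd : W.Δ = (C.u : F) ^ 12 * T.Δ := by
    rw [← hC, variableChange_Δ, Units.val_inv_eq_inv_val]
    have hu : (C.u : F) ≠ 0 := C.u.ne_zero
    field_simp
  have hEc : (E F).c₄ = (C₂.u : F) ^ 4 * (C₂ • E F).c₄ := by
    rw [variableChange_c₄, Units.val_inv_eq_inv_val]
    have hu : (C₂.u : F) ≠ 0 := C₂.u.ne_zero
    field_simp
  have hEd : (E F).Δ = (C₂.u : F) ^ 12 * (C₂ • E F).Δ := by
    rw [variableChange_Δ, Units.val_inv_eq_inv_val]
    have hu : (C₂.u : F) ≠ 0 := C₂.u.ne_zero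
    field_simp
  have hc4 : w.valuation F ((C₂ • E F).c₄) ≤ 1 := by
    have k1 := hg.a1
    have k2 := hg.a2
    have k3 := hg.a3
    have k4 := hg.a4
    have hn : ∀ n : ℕ, w.valuation F (n : F) ≤ 1 := fun n => by
      have h := w.valuation_le_one (K := F) (n : 𝓞 F)
      have e : algebraMap (𝓞 F) F (n : 𝓞 F) = n := map_natCast (algebraMap (𝓞 F) F) n
      rw [← e]
      exact h
    have hm : ∀ {x y : F}, w.valuation F x ≤ 1 → w.valuation F y ≤ 1 →
        w.valuation F (x * y) ≤ 1 := fun hx hy => by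
      rw [map_mul]
      exact mul_le_one' hx hy
    have hp : ∀ {x : F} (n : ℕ), w.valuation F x ≤ 1 → w.valuation F (x ^ n) ≤ 1 := fun n hx => by
      rw [map_pow]
      exact pow_le_one₀ zero_le hx
    have ha : ∀ {x y : F}, w.valuation F x ≤ 1 → w.valuation F y ≤ 1 →
        w.valuation F (x + y) ≤ 1 := fun hx hy => Valuation.map_add_le _ hx hy
    have hb2 : w.valuation F ((C₂ • E F).b₂) ≤ 1 := by
      have h4 : w.valuation F 4 ≤ 1 := by exact_mod_cast hn 4
      exact ha (hp 2 k1) (hm h4 k2)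
    have hb4 : w.valuation F ((C₂ • E F).b₄) ≤ 1 := by
      have h2 : w.valuation F 2 ≤ 1 := by exact_mod_cast hn 2
      exact ha (hm h2 k4) (hm k1 k3)
    have h24 : w.valuation F 24 ≤ 1 := by exact_mod_cast hn 24
    exact Valuation.map_sub_le _ (hp 2 hb2) (hm h24 hb4)
  have hdisc := hg.disc
  refine Pool.Agent.Lib.MP_1a91b9_nuX.GL.locPoly_bad w W ?_ ?_
  · -- the `j`-invariant is integral
    rw [hWc, hWd, hTc, hTd, hEc, hEd]
    have e1 : ((C.u : F) ^ 4 * (d ^ 2 * ((C₂.u : F) ^ 4 * (C₂ • E F).c₄))) ^ 3 =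
        (C.u : F) ^ 12 * (d ^ 6 * (C₂.u : F) ^ 12) * (C₂ • E F).c₄ ^ 3 := by ring
    have e2 : (C.u : F) ^ 12 * (d ^ 6 * ((C₂.u : F) ^ 12 * (C₂ • E F).Δ)) =
        (C.u : F) ^ 12 * (d ^ 6 * (C₂.u : F) ^ 12) * (C₂ • E F).Δ := by ring
    rw [e1, e2, map_mul, map_mul _ _ ((C₂ • E F).Δ), hdisc, mul_one, map_pow _ ((C₂ • E F).c₄)]
    exact mul_le_of_le_one_right' (pow_le_one₀ zero_le hc4)
  · rintro ⟨C', hC'⟩
    apply hd
    have h1 := hC'.disc
    rw [variableChange_Δ, hWd, hTd, hEd, map_mul, map_mul, map_mul, map_mul, hdisc, mul_one,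
      map_pow, map_pow, map_pow, map_pow] at h1
    have hnz : ∀ x : F, x ≠ 0 → ∃ n : ℤ, w.valuation F x = exp n := fun x hx =>
      ⟨log (w.valuation F x), (exp_log ((Valuation.ne_zero_iff _).2 hx)).symm⟩
    obtain ⟨n1, h3⟩ := hnz _ (Units.ne_zero C'.u⁻¹)
    obtain ⟨n2, h4⟩ := hnz _ (Units.ne_zero C.u)
    obtain ⟨n3, h5⟩ := hnz _ (Units.ne_zero C₂.u)
    obtain ⟨n, h6⟩ := hnz _ hd0
    rw [h3, h4, h5, h6, ← exp_nsmul, ← exp_nsmul, ← exp_nsmul, ← exp_nsmul, ← exp_add, ← exp_add,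
      ← exp_add, ← exp_zero, exp_inj] at h1
    simp only [nsmul_eq_mul, Nat.cast_ofNat] at h1
    rw [h6]
    refine ⟨exp (-(n1 + n2 + n3)), ?_⟩
    rw [← exp_add, exp_inj]
    omega

end

end Pool.Agent.Lib.MP_1a91b9_ntL
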